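import Pool.Agent.N929.AC.Stm

/-!
# AC/OMG (helper189): the domain of the analytic continuation
-/

set_option autoImplicit false

namespace Pool.Agent.N189.AC

open Filter Topology Pool.Agent.N929.AC

lemma abs_cs_le (s : ℕ) (z : ℂ) : |cs s z| ≤ 1 := by
  unfold cs
  rw [abs_div, abs_of_nonneg (pow_nonneg (norm_nonneg z) s), ← norm_pow]
  exact div_le_one_of_le₀ (Complex.abs_re_le_norm _) (norm_nonneg _)

lemma cont_cs (s : ℕ) (z : ℂ) (hz : z ≠ 0) : ContinuousAt (cs s) z := by
  unfold cs
  refine ContinuousAt.div ?_ ?_ (pow_ne_zero _ (norm_ne_zero_iff.2 hz))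
  · exact Complex.continuous_re.continuousAt.comp (continuousAt_id.pow s)
  · exact (continuous_norm.continuousAt).pow s

lemma disc_sub (c μ : ℝ) (s : ℕ) (hc : 0 < c) (z : ℂ) (hz : μ * ‖z‖ < 1) : z ∈ Om c μ s := by
  show μ * ‖z‖ < 1 + c * (1 - cs s z)
  have h := (abs_le.1 (abs_cs_le s z)).2
  have h1 : 0 ≤ c * (1 - cs s z) := mul_nonneg hc.le (by linarith)
  linarith

lemma cs_smul (s : ℕ) (b : ℝ) (hb : 0 < b) (z : ℂ) : cs s (b • z) = cs s z := by
  unfold cs
  have h1 : (b • z) ^ s = (b ^ s : ℝ) • z ^ s := smul_pow b z s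
  rw [h1, Complex.smul_re, norm_smul, mul_pow, Real.norm_of_nonneg hb.le, smul_eq_mul,
    mul_div_mul_left _ _ (pow_pos hb s).ne']

theorem omg : S_OMG := by
  intro c μ s hc hμ hs
  refine ⟨?_, ?_, disc_sub c μ s hc, abs_cs_le s, cont_cs s⟩
  · rw [isOpen_iff_mem_nhds]
    intro z hz
    by_cases h0 : z = 0
    · have ho : IsOpen {w : ℂ | μ * ‖w‖ < 1} := isOpen_lt (by fun_prop) continuous_const
      refine Filter.mem_of_superset (ho.mem_nhds (by simp [h0])) ?_
      intro w hw
      exact disc_sub c μ s hc w hw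
    · have h1 : ContinuousAt (fun w : ℂ => μ * ‖w‖) z := by fun_prop
      have h2 : ContinuousAt (fun w : ℂ => 1 + c * (1 - cs s w)) z :=
        continuousAt_const.add (continuousAt_const.mul (continuousAt_const.sub (cont_cs s z h0)))
      exact h1.eventually_lt h2 hz
  · have hst : StarConvex ℝ (0 : ℂ) (Om c μ s) := by
      intro y hy a b ha hb hab
      rw [smul_zero, zero_add]
      rcases hb.eq_or_lt with h | h
      · rw [← h, zero_smul]
        exact disc_sub c μ s hc 0 (by simp)
      · show μ * ‖b • y‖ < 1 + c * (1 - cs s (b • y))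
        rw [cs_smul s b h, norm_smul, Real.norm_of_nonneg hb]
        have hy' : μ * ‖y‖ < 1 + c * (1 - cs s y) := hy
        refine lt_of_le_of_lt ?_ hy'
        have : b * ‖y‖ ≤ ‖y‖ := mul_le_of_le_one_left (norm_nonneg y) (by linarith)
        exact mul_le_mul_of_nonneg_left this (by linarith)
    exact (hst.isPathConnected (disc_sub c μ s hc 0 (by simp))).isConnected.isPreconnected

end Pool.Agent.N189.AC
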